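import Pool.Agent.Helper75.CS.Count
import Pool.Agent.Helper85.CS.CSBASE
import Pool.Agent.Helper53.CS.CSNUM
import Pool.Agent.Helper13.CS.CSGROW
import Pool.Agent.Helper86.CS.CSWALK

/-!
# Growth of the number of closed walks and the bound for `capNum`
-/

namespace Pool.Agent.Helper75.CS

open Finset

/-- weighted number of walks from `q0` to `q` of length `N` -/
def UU {E Q : Type} [Fintype E] [DecidableEq Q] (src dst : E → Q) (wt : E → ℕ) (q0 : Q) :
    ℕ → Q → ℕ
  | 0, q => if q = q0 then 1 else 0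
  | N + 1, q => ∑ e : E, if dst e = q then UU src dst wt q0 N (src e) * wt e else 0

/-- total size of the boxes of the walks -/
noncomputable def TT {E Q : Type} [Fintype E] (src dst : E → Q) {r0 : ℕ}
    (word : E → Fin r0 → Fin 7) (q0 : Q) (N : ℕ) (q : Q) : ℕ :=
  ∑ w : Fin N → E,
    (open Classical in if IsWalk src dst q0 q w then ∏ i, csize (word (w i)) else 0)

theorem TT_eq (hw : S_CSWALK) {E Q : Type} [Fintype E] [DecidableEq Q] (src dst : E → Q)
    {r0 K0 : ℕ} (hK0 : K0 ≤ 3 * r0) (word : E → Fin r0 → Fin 7) (q0 : Q) (h : Q → ℕ) (h0 : h q0 = 0)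
    (hz : ∀ e, zer (word e) + h (src e) = K0 + h (dst e)) :
    ∀ N q, TT src dst word q0 N q * b1 ^ h q =
      UU src dst (fun e => wtW (word e)) q0 N q * BB r0 K0 ^ N * b0 ^ h q := by
  obtain ⟨hT0, hT1⟩ := hw E Q inferInstance inferInstance src dst q0
    (fun e => csize (word e)) (TT src dst word q0) (fun N q => rfl)
  intro N
  induction N with
  | zero =>
    intro q
    rw [hT0]
    by_cases hq : q = q0
    · subst hq
      simp [UU, h0]
    · simp [UU, hq]
  | succ N ih =>
    intro q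
    rw [hT1]
    show (∑ e : E, if dst e = q then TT src dst word q0 N (src e) * csize (word e) else 0) *
      b1 ^ h q = (∑ e : E, if dst e = q then
        UU src dst (fun e => wtW (word e)) q0 N (src e) * wtW (word e) else 0) *
        BB r0 K0 ^ (N + 1) * b0 ^ h q
    rw [Finset.sum_mul, Finset.sum_mul, Finset.sum_mul]
    refine Finset.sum_congr rfl fun e _ => ?_
    split_ifs with he
    · subst he
      have hc := csize_shift hK0 (word e) (h (src e)) (h (dst e)) (hz e)
      have hi := ih (src e)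
      have hpos : 0 < b0 ^ h (src e) * b1 ^ h (src e) :=
        Nat.mul_pos (pow_pos b0_pos _) (pow_pos b1_pos _)
      refine Nat.eq_of_mul_eq_mul_right hpos ?_
      calc TT src dst word q0 N (src e) * csize (word e) * b1 ^ h (dst e) *
            (b0 ^ h (src e) * b1 ^ h (src e))
          = (TT src dst word q0 N (src e) * b1 ^ h (src e)) *
              (csize (word e) * (b0 ^ h (src e) * b1 ^ h (dst e))) := by ring
        _ = (UU src dst (fun e => wtW (word e)) q0 N (src e) * BB r0 K0 ^ N * b0 ^ h (src e)) *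
              (wtW (word e) * BB r0 K0 * (b0 ^ h (dst e) * b1 ^ h (src e))) := by rw [hi, hc]
        _ = UU src dst (fun e => wtW (word e)) q0 N (src e) * wtW (word e) *
              BB r0 K0 ^ (N + 1) * b0 ^ h (dst e) * (b0 ^ h (src e) * b1 ^ h (src e)) := by ring
    · simp

theorem UU_lower {E Q : Type} [Fintype E] [DecidableEq Q] (src dst : E → Q) (wt : E → ℕ)
    (q0 : Q) (v : Q → ℕ) (p den n0 K : ℕ)
    (hev : ∀ q, p * v q ≤ den * ∑ e : E, if dst e = q then v (src e) * wt e else 0)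
    (hb : ∀ q, v q ≤ K * UU src dst wt q0 n0 q) :
    ∀ N q, v q * p ^ N ≤ K * den ^ N * UU src dst wt q0 (n0 + N) q := by
  intro N
  induction N with
  | zero => intro q; simpa using hb q
  | succ N ih =>
    intro q
    have hs : (∑ e : E, if dst e = q then v (src e) * wt e else 0) * p ^ N ≤
        K * den ^ N * UU src dst wt q0 (n0 + (N + 1)) q := by
      show (∑ e : E, if dst e = q then v (src e) * wt e else 0) * p ^ N ≤
        K * den ^ N * ∑ e : E, if dst e = q then UU src dst wt q0 (n0 + N) (src e) * wt e else 0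
      rw [Finset.sum_mul, Finset.mul_sum]
      refine Finset.sum_le_sum fun e _ => ?_
      split_ifs
      · calc v (src e) * wt e * p ^ N = (v (src e) * p ^ N) * wt e := by ring
          _ ≤ (K * den ^ N * UU src dst wt q0 (n0 + N) (src e)) * wt e :=
            Nat.mul_le_mul_right _ (ih (src e))
          _ = K * den ^ N * (UU src dst wt q0 (n0 + N) (src e) * wt e) := by ring
      · simp
    calc v q * p ^ (N + 1) = (p * v q) * p ^ N := by ring
      _ ≤ (den * ∑ e : E, if dst e = q then v (src e) * wt e else 0) * p ^ N :=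
        Nat.mul_le_mul_right _ (hev q)
      _ = den * ((∑ e : E, if dst e = q then v (src e) * wt e else 0) * p ^ N) := by ring
      _ ≤ den * (K * den ^ N * UU src dst wt q0 (n0 + (N + 1)) q) :=
        Nat.mul_le_mul_left _ hs
      _ = K * den ^ (N + 1) * UU src dst wt q0 (n0 + (N + 1)) q := by ring

theorem finrank_GB (N r0 : ℕ) :
    Module.finrank (ZMod 3) (Fin N → Fin r0 → GB) = N * (r0 * 54) := by
  simp [GB, Module.finrank_pi_fintype]

/-- the size of the cap in dimension `N * (r0 * 54)` -/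
theorem cap_lower {E Q : Type} [Fintype E] [DecidableEq Q] {r0 K0 : ℕ} (hK0 : K0 ≤ 3 * r0)
    (src dst : E → Q) (word : E → Fin r0 → Fin 7) (R : Q → Q → Q → Prop) (q0 : Q)
    (h1 : ∀ e f g, src e = src f → src f = src g →
      (∀ i, bad7 (word e i) (word f i) (word g i) = true) → ¬ (e = f ∧ f = g) →
      R (dst e) (dst f) (dst g))
    (h2 : ∀ e f g, R (src e) (src f) (src g) →
      (∀ i, bad7 (word e i) (word f i) (word g i) = true) → R (dst e) (dst f) (dst g))
    (h3 : ¬ R q0 q0 q0) (h : Q → ℕ) (h0 : h q0 = 0)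
    (hz : ∀ e, zer (word e) + h (src e) = K0 + h (dst e)) (N : ℕ) :
    UU src dst (fun e => wtW (word e)) q0 N q0 * BB r0 K0 ^ N ≤ capNum (N * (r0 * 54)) := by
  obtain ⟨A, hA, hcard⟩ := cap_walks Pool.Agent.Helper85.CS.csbase src dst word R q0 h1 h2 h3 N
  have e := TT_eq Pool.Agent.Helper86.CS.cswalk src dst hK0 word q0 h h0 hz N q0
  rw [h0] at e
  simp only [pow_zero, mul_one] at e
  rw [← e]
  have hc : TT src dst word q0 N q0 = A.card := by
    rw [hcard]
    rfl
  rw [hc]
  have := Pool.Agent.Helper53.CS.csnum.1 (Fin N → Fin r0 → GB) inferInstance inferInstance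
    inferInstance A hA
  rwa [finrank_GB] at this

/-- The bound for the growth of `capNum` given by a graph with words of `r0` letters. -/
theorem capNum_growth {E Q : Type} [Fintype E] [DecidableEq Q] {r0 K0 : ℕ} (hr0 : 1 ≤ r0)
    (hK0 : K0 ≤ 3 * r0)
    (src dst : E → Q) (word : E → Fin r0 → Fin 7) (R : Q → Q → Q → Prop) (q0 : Q)
    (h1 : ∀ e f g, src e = src f → src f = src g →
      (∀ i, bad7 (word e i) (word f i) (word g i) = true) → ¬ (e = f ∧ f = g) →
      R (dst e) (dst f) (dst g))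
    (h2 : ∀ e f g, R (src e) (src f) (src g) →
      (∀ i, bad7 (word e i) (word f i) (word g i) = true) → R (dst e) (dst f) (dst g))
    (h3 : ¬ R q0 q0 q0) (h : Q → ℕ) (h0 : h q0 = 0)
    (hz : ∀ e, zer (word e) + h (src e) = K0 + h (dst e))
    (v : Q → ℕ) (hv0 : 1 ≤ v q0) (p den n0 K : ℕ) (hden : 1 ≤ den) (hn0 : 1 ≤ n0)
    (hev : ∀ q, p * v q ≤ den * ∑ e : E, if dst e = q then v (src e) * wtW (word e) else 0)
    (hb : ∀ q, v q ≤ K * UU src dst (fun e => wtW (word e)) q0 n0 q)
    (l : ℝ) (hl : 1 ≤ l) (hL : l ^ (r0 * 54) * den < p * BB r0 K0) :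
    ∃ r₁ : ℕ, ∀ r ≥ r₁, l ^ r ≤ (capNum r : ℝ) := by
  have hcap := cap_lower hK0 src dst word R q0 h1 h2 h3 h h0 hz
  have hU := UU_lower src dst (fun e => wtW (word e)) q0 v p den n0 K hev hb
  set L : ℝ := l ^ (r0 * 54) with hLdef
  have hLpos : 0 < L := pow_pos (by linarith) _
  have hdpos : (0 : ℝ) < den := by exact_mod_cast hden
  have hBpos : (0 : ℝ) < BB r0 K0 := by
    have : 0 < BB r0 K0 := Nat.mul_pos (pow_pos b0_pos _) (pow_pos b1_pos _)
    exact_mod_cast this
  have hKpos : (0 : ℝ) < K := by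
    have : 0 < K := by
      rcases Nat.eq_zero_or_pos K with hK | hK
      · have := hb q0
        rw [hK, zero_mul] at this
        omega
      · exact hK
    exact_mod_cast this
  have hx : 1 < (p * BB r0 K0 : ℝ) / (L * den) := by
    rw [lt_div_iff₀ (mul_pos hLpos hdpos), one_mul]
    exact hL
  obtain ⟨N, hN⟩ := pow_unbounded_of_one_lt (K * L ^ n0 / (BB r0 K0 : ℝ) ^ n0) hx
  -- the strict inequality at level `n0 + N`
  have hlt : L ^ (n0 + N) <
      ((UU src dst (fun e => wtW (word e)) q0 (n0 + N) q0 * BB r0 K0 ^ (n0 + N) : ℕ) : ℝ) := by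
    have hv1 : (p : ℝ) ^ N ≤ K * (den : ℝ) ^ N *
        (UU src dst (fun e => wtW (word e)) q0 (n0 + N) q0 : ℝ) := by
      have a := hU N q0
      have b : p ^ N ≤ K * den ^ N * UU src dst (fun e => wtW (word e)) q0 (n0 + N) q0 :=
        le_trans (by simpa using Nat.mul_le_mul_right (p ^ N) hv0) a
      exact_mod_cast b
    rw [div_lt_iff₀ (pow_pos hBpos _), div_pow, div_mul_eq_mul_div,
      lt_div_iff₀ (pow_pos (mul_pos hLpos hdpos) _)] at hN
    push_cast
    have c1 : (K * (den : ℝ) ^ N) * L ^ (n0 + N) <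
        (K * (den : ℝ) ^ N) * ((UU src dst (fun e => wtW (word e)) q0 (n0 + N) q0 : ℝ) *
          (BB r0 K0 : ℝ) ^ (n0 + N)) := by
      calc (K * (den : ℝ) ^ N) * L ^ (n0 + N) = K * L ^ n0 * (L * den) ^ N := by
            rw [mul_pow, pow_add]; ring
        _ < (p * BB r0 K0 : ℝ) ^ N * (BB r0 K0 : ℝ) ^ n0 := hN
        _ = (p : ℝ) ^ N * (BB r0 K0 : ℝ) ^ (n0 + N) := by rw [mul_pow, pow_add]; ring
        _ ≤ (K * (den : ℝ) ^ N * (UU src dst (fun e => wtW (word e)) q0 (n0 + N) q0 : ℝ)) *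
            (BB r0 K0 : ℝ) ^ (n0 + N) :=
          mul_le_mul_of_nonneg_right hv1 (pow_nonneg hBpos.le _)
        _ = (K * (den : ℝ) ^ N) * ((UU src dst (fun e => wtW (word e)) q0 (n0 + N) q0 : ℝ) *
          (BB r0 K0 : ℝ) ^ (n0 + N)) := by ring
    exact lt_of_mul_lt_mul_left c1 (mul_nonneg hKpos.le (pow_nonneg hdpos.le _))
  have hD : 1 ≤ (n0 + N) * (r0 * 54) := Nat.mul_pos (by omega) (by omega)
  refine Pool.Agent.Helper13.CS.csgrow capNum ((n0 + N) * (r0 * 54))
    (UU src dst (fun e => wtW (word e)) q0 (n0 + N) q0 * BB r0 K0 ^ (n0 + N)) l hD hl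
    (fun r s hrs => Pool.Agent.Helper53.CS.csnum.2.1 r s hrs) ?_ ?_
  · intro k
    exact le_trans (Nat.pow_le_pow_left (hcap (n0 + N)) k)
      (Pool.Agent.Helper53.CS.csnum.2.2.1 _ k)
  · have : l ^ ((n0 + N) * (r0 * 54)) = L ^ (n0 + N) := by
      rw [hLdef, ← pow_mul, mul_comm]
    rw [this]
    exact hlt

end Pool.Agent.Helper75.CS
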