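import Pool.Agent.Helper75.CS.Levels

namespace Pool.Agent.Helper75.CS

open Finset

/-- the group of one block of three super coordinates: dimension `6 * 3 * 3 = 54` -/
abbrev GB : Type := Fin 3 → Fin 3 → Fin 6 → ZMod 3

def b0 : ℕ := 36 * 112 ^ 2
def b1 : ℕ := 112 ^ 3

/-- number of zeros of a letter -/
def cnt (a : Fin 7) : ℕ := a.val / 2
/-- number of rotations of a letter -/
def wt7 (a : Fin 7) : ℕ := if a.val / 2 = 1 ∨ a.val / 2 = 2 then 3 else 1

def c3 : Fin 3 → ℕ := ![12, 112, 112]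
def ct : Fin 3 → ℕ := ![36 * 112 ^ 2, 112 ^ 3, 112 ^ 3]

theorem ct_eq : ∀ t : Fin 3, ∑ u ∈ KT t, ∏ i, c3 (u i) = ct t := by
  decide +kernel

theorem c7_eq : ∀ t : Fin 7, ∑ u ∈ K7 t, ∏ i, ct (u i) = wt7 t * (b0 ^ cnt t * b1 ^ (3 - cnt t)) := by
  decide +kernel

theorem cnt_le (a : Fin 7) : cnt a ≤ 3 := by
  revert a
  decide +kernel

theorem z3_three (x : ZMod 3) : x + x + x = 0 := by
  revert x
  decide

theorem exists_sys7 (hb : S_CSBASE) :
    ∃ S : Sys (Fin 7) GB, (∀ a b c, S.bad a b c = bad7 a b c) ∧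
      ∀ t, (S.set t).card = wt7 t * (b0 ^ cnt t * b1 ^ (3 - cnt t)) := by
  classical
  obtain ⟨S, hbad, h0, h1, h2⟩ := hb
  have hc3 : ∀ t, (S.set t).card = c3 t := by
    intro t
    fin_cases t
    · simpa [c3] using h0
    · simpa [c3] using h1
    · simpa [c3] using h2
  have hx3 : ∀ x : Fin 6 → ZMod 3, x + x + x = 0 := three_pi z3_three
  -- the tournament level
  have hadmT : ∀ t, Adm S (KT t) := by
    intro t u hu v hv w hw hbw
    exact kt_adm t u hu v hv w hw fun i => by rw [← hbad]; exact hbw i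
  have hgoodT : ∀ a b c, bad3 a b c = false → ∀ u ∈ KT a, ∀ v ∈ KT b, ∀ w ∈ KT c,
      ¬ BadW S u v w := by
    intro a b c hf u hu v hv w hw hbw
    exact kt_good a b c hf u hu v hv w hw fun i => by rw [← hbad]; exact hbw i
  let ST : Sys (Fin 3) (Fin 3 → Fin 6 → ZMod 3) := S.next KT bad3 hadmT hgoodT
  have hct : ∀ t, (ST.set t).card = ct t := by
    intro t
    show (uni S (KT t)).card = _
    rw [card_uni hx3 S (KT t) (hadmT t), ← ct_eq t]
    exact Finset.sum_congr rfl fun u _ => Finset.prod_congr rfl fun i _ => hc3 _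
  have hxT : ∀ x : Fin 3 → Fin 6 → ZMod 3, x + x + x = 0 := three_pi hx3
  -- the letter level
  have hadm7 : ∀ t, Adm ST (K7 t) := by
    intro t u hu v hv w hw hbw
    exact k7_adm t u hu v hv w hw fun i => hbw i
  have hgood7 : ∀ a b c, bad7 a b c = false → ∀ u ∈ K7 a, ∀ v ∈ K7 b, ∀ w ∈ K7 c,
      ¬ BadW ST u v w := by
    intro a b c hf u hu v hv w hw hbw
    exact k7_good a b c hf u hu v hv w hw fun i => hbw i
  refine ⟨ST.next K7 bad7 hadm7 hgood7, fun a b c => rfl, ?_⟩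
  intro t
  show (uni ST (K7 t)).card = _
  rw [card_uni hxT ST (K7 t) (hadm7 t), ← c7_eq t]
  exact Finset.sum_congr rfl fun u _ => Finset.prod_congr rfl fun i _ => hct _

end Pool.Agent.Helper75.CS
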