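import Pool.Agent.Helper75.CS.Goals

namespace Pool.Agent.Helper75.CS

open Finset

variable {σ τ G : Type} [AddCommGroup G]

theorem mem_box {S : Sys σ G} {l : ℕ} {u : Fin l → σ} {x : Fin l → G} :
    x ∈ box S u ↔ ∀ i, x i ∈ S.set (u i) := by
  simp [box, Fintype.mem_piFinset]

/-- the union of boxes over an admissible set of words is a cap -/
theorem cap_uni [DecidableEq G] (S : Sys σ G) {l : ℕ} (K : Finset (Fin l → σ))
    (h : Adm S K) : Cap (uni S K) := by
  intro a ha b hb c hc habc
  simp only [uni, Finset.mem_biUnion] at ha hb hc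
  obtain ⟨u, hu, ha⟩ := ha
  obtain ⟨v, hv, hb⟩ := hb
  obtain ⟨w, hw, hc⟩ := hc
  rw [mem_box] at ha hb hc
  have hbad : BadW S u v w := by
    intro i
    by_contra hne
    have hf : S.bad (u i) (v i) (w i) = false := by simpa using hne
    exact S.good _ _ _ hf _ (ha i) _ (hb i) _ (hc i) (by simpa using congrFun habc i)
  obtain ⟨rfl, rfl⟩ := h u hu v hv w hw hbad
  have := fun i => S.cap (u i) (a i) (ha i) (b i) (hb i) (c i) (hc i)
    (by simpa using congrFun habc i)
  exact ⟨funext fun i => (this i).1, funext fun i => (this i).2⟩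

/-- boxes of different words of an admissible set are disjoint -/
theorem box_disjoint (h3 : ∀ x : G, x + x + x = 0) (S : Sys σ G) {l : ℕ}
    (K : Finset (Fin l → σ)) (h : Adm S K) {u v : Fin l → σ} (hu : u ∈ K) (hv : v ∈ K)
    (huv : u ≠ v) : Disjoint (box S u) (box S v) := by
  rw [Finset.disjoint_left]
  intro x hx hx'
  rw [mem_box] at hx hx'
  refine huv (h u hu u hu v hv ?_).2
  intro i
  by_contra hne
  have hf : S.bad (u i) (u i) (v i) = false := by simpa using hne
  exact S.good _ _ _ hf _ (hx i) _ (hx i) _ (hx' i) (h3 _)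

theorem card_uni [DecidableEq G] (h3 : ∀ x : G, x + x + x = 0) (S : Sys σ G) {l : ℕ}
    (K : Finset (Fin l → σ)) (h : Adm S K) :
    (uni S K).card = ∑ u ∈ K, ∏ i, (S.set (u i)).card := by
  unfold uni
  rw [Finset.card_biUnion (fun u hu v hv huv => box_disjoint h3 S K h hu hv huv)]
  refine Finset.sum_congr rfl fun u _ => ?_
  simp [box, Fintype.card_piFinset]

/-- the next level: symbols are finite sets of words -/
noncomputable def Sys.next [DecidableEq G] (S : Sys σ G) {l : ℕ}
    (K : τ → Finset (Fin l → σ)) (bad' : τ → τ → τ → Bool)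
    (hadm : ∀ t, Adm S (K t))
    (hgood : ∀ a b c, bad' a b c = false → ∀ u ∈ K a, ∀ v ∈ K b, ∀ w ∈ K c, ¬ BadW S u v w) :
    Sys τ (Fin l → G) where
  set t := uni S (K t)
  bad := bad'
  cap t := cap_uni S (K t) (hadm t)
  good a b c hf := by
    intro x hx y hy z hz hsum
    simp only [uni, Finset.mem_biUnion] at hx hy hz
    obtain ⟨u, hu, hx⟩ := hx
    obtain ⟨v, hv, hy⟩ := hy
    obtain ⟨w, hw, hz⟩ := hz
    rw [mem_box] at hx hy hz
    refine hgood a b c hf u hu v hv w hw ?_
    intro i
    by_contra hne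
    have hf' : S.bad (u i) (v i) (w i) = false := by simpa using hne
    exact S.good _ _ _ hf' _ (hx i) _ (hy i) _ (hz i) (by simpa using congrFun hsum i)

/-- the level of single words: the symbols are words, a triple is bad iff all columns are -/
noncomputable def Sys.word [DecidableEq G] (S : Sys σ G) {l : ℕ} (W : τ → (Fin l → σ))
    (bad' : τ → τ → τ → Bool)
    (hgood : ∀ a b c, bad' a b c = false → ¬ BadW S (W a) (W b) (W c)) :
    Sys τ (Fin l → G) :=
  S.next (fun t => {W t}) bad'
    (by
      intro t u hu v hv w hw _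
      simp only [Finset.mem_singleton] at hu hv hw
      subst hu; subst hv; subst hw
      exact ⟨rfl, rfl⟩)
    (by
      intro a b c hf u hu v hv w hw
      simp only [Finset.mem_singleton] at hu hv hw
      subst hu; subst hv; subst hw
      exact hgood a b c hf)

theorem card_word [DecidableEq G] (S : Sys σ G) {l : ℕ} (W : τ → (Fin l → σ))
    (bad' : τ → τ → τ → Bool)
    (hgood : ∀ a b c, bad' a b c = false → ¬ BadW S (W a) (W b) (W c)) (t : τ) :
    ((S.word W bad' hgood).set t).card = ∏ i, (S.set (W t i)).card := by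
  show (uni S {W t}).card = _
  simp [uni, box, Fintype.card_piFinset]

theorem three_pi {G : Type} [AddCommGroup G] (h3 : ∀ x : G, x + x + x = 0) {l : ℕ} :
    ∀ x : Fin l → G, x + x + x = 0 := by
  intro x
  funext i
  simpa using h3 (x i)

end Pool.Agent.Helper75.CS
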