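import Pool.Agent.Helper75.CS.Sizes

namespace Pool.Agent.Helper75.CS

open Finset

/-- size of the box of a word of letters -/
def csize {r0 : ℕ} (u : Fin r0 → Fin 7) : ℕ :=
  ∏ i, (wt7 (u i) * (b0 ^ cnt (u i) * b1 ^ (3 - cnt (u i))))

/-- weight of a word of letters (number of rotations) -/
def wtW {r0 : ℕ} (u : Fin r0 → Fin 7) : ℕ := ∏ i, wt7 (u i)

/-- number of zeros of a word of letters -/
def zer {r0 : ℕ} (u : Fin r0 → Fin 7) : ℕ := ∑ i, cnt (u i)

theorem b0_pos : 0 < b0 := by unfold b0; positivity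
theorem b1_pos : 0 < b1 := by unfold b1; positivity

theorem csize_eq {r0 : ℕ} (u : Fin r0 → Fin 7) :
    csize u = wtW u * (b0 ^ zer u * b1 ^ (3 * r0 - zer u)) := by
  have h : ∑ i : Fin r0, (3 - cnt (u i)) = 3 * r0 - zer u := by
    have h1 : ∑ i : Fin r0, (3 - cnt (u i)) + zer u = 3 * r0 := by
      unfold zer
      rw [← Finset.sum_add_distrib]
      have : ∀ i : Fin r0, 3 - cnt (u i) + cnt (u i) = 3 := fun i => by
        have := cnt_le (u i)
        omega
      rw [Finset.sum_congr rfl fun i _ => this i]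
      simp [mul_comm]
    omega
  unfold csize wtW
  rw [Finset.prod_mul_distrib, Finset.prod_mul_distrib, Finset.prod_pow_eq_pow_sum,
    Finset.prod_pow_eq_pow_sum, h]
  rfl

theorem zer_le {r0 : ℕ} (u : Fin r0 → Fin 7) : zer u ≤ 3 * r0 := by
  unfold zer
  calc ∑ i, cnt (u i) ≤ ∑ _i : Fin r0, 3 := Finset.sum_le_sum fun i _ => cnt_le _
    _ = 3 * r0 := by simp [mul_comm]

/-- the base quantity of one word of `r0` letters with `K` zeros -/
def BB (r0 K : ℕ) : ℕ := b0 ^ K * b1 ^ (3 * r0 - K)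

theorem csize_shift {r0 K : ℕ} (hK : K ≤ 3 * r0) (u : Fin r0 → Fin 7) (hs hd : ℕ)
    (h : zer u + hs = K + hd) :
    csize u * (b0 ^ hs * b1 ^ hd) = wtW u * BB r0 K * (b0 ^ hd * b1 ^ hs) := by
  rw [csize_eq]
  have hz := zer_le u
  have e1 : b0 ^ zer u * b0 ^ hs = b0 ^ K * b0 ^ hd := by rw [← pow_add, ← pow_add, h]
  have e2 : b1 ^ (3 * r0 - zer u) * b1 ^ hd = b1 ^ (3 * r0 - K) * b1 ^ hs := by
    rw [← pow_add, ← pow_add]
    congr 1
    omega
  calc wtW u * (b0 ^ zer u * b1 ^ (3 * r0 - zer u)) * (b0 ^ hs * b1 ^ hd)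
      = wtW u * ((b0 ^ zer u * b0 ^ hs) * (b1 ^ (3 * r0 - zer u) * b1 ^ hd)) := by ring
    _ = wtW u * ((b0 ^ K * b0 ^ hd) * (b1 ^ (3 * r0 - K) * b1 ^ hs)) := by rw [e1, e2]
    _ = wtW u * BB r0 K * (b0 ^ hd * b1 ^ hs) := by unfold BB; ring

/-- the caps given by closed walks -/
theorem cap_walks (hb : S_CSBASE) {E Q : Type} [Fintype E] {r0 : ℕ}
    (src dst : E → Q) (word : E → Fin r0 → Fin 7) (R : Q → Q → Q → Prop) (q0 : Q)
    (h1 : ∀ e f g, src e = src f → src f = src g →
      (∀ i, bad7 (word e i) (word f i) (word g i) = true) → ¬ (e = f ∧ f = g) →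
      R (dst e) (dst f) (dst g))
    (h2 : ∀ e f g, R (src e) (src f) (src g) →
      (∀ i, bad7 (word e i) (word f i) (word g i) = true) → R (dst e) (dst f) (dst g))
    (h3 : ¬ R q0 q0 q0) (N : ℕ) :
    ∃ A : Finset (Fin N → Fin r0 → GB), Cap A ∧
      A.card = ∑ w : Fin N → E,
        (open Classical in if IsWalk src dst q0 q0 w then ∏ i, csize (word (w i)) else 0) := by
  classical
  obtain ⟨S7, hbad, hcard⟩ := exists_sys7 hb
  let badE : E → E → E → Bool := fun e f g =>
    decide (∀ i, bad7 (word e i) (word f i) (word g i) = true)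
  have hgE : ∀ a b c, badE a b c = false → ¬ BadW S7 (word a) (word b) (word c) := by
    intro a b c hf hbw
    have : ¬ ∀ i, bad7 (word a i) (word b i) (word c i) = true := of_decide_eq_false hf
    exact this fun i => by rw [← hbad]; exact hbw i
  let SE : Sys E (Fin r0 → GB) := S7.word word badE hgE
  have hx : ∀ x : Fin r0 → GB, x + x + x = 0 :=
    three_pi (three_pi (three_pi (three_pi z3_three)))
  let K : Finset (Fin N → E) := Finset.univ.filter (fun w => IsWalk src dst q0 q0 w)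
  have hK : ∀ w ∈ K, IsWalk src dst q0 q0 w := fun w hw => (Finset.mem_filter.mp hw).2
  have hadm : Adm SE K := by
    refine adm_walk SE src dst q0 R ?_ ?_ h3 K hK
    · intro e f g he hf hbe hne
      exact h1 e f g he hf (of_decide_eq_true hbe) hne
    · intro e f g hR hbe
      exact h2 e f g hR (of_decide_eq_true hbe)
  refine ⟨uni SE K, cap_uni SE K hadm, ?_⟩
  rw [card_uni hx SE K hadm]
  have hce : ∀ e, (SE.set e).card = csize (word e) := by
    intro e
    show ((S7.word word badE hgE).set e).card = _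
    rw [card_word]
    exact Finset.prod_congr rfl fun i _ => hcard _
  rw [Finset.sum_filter]
  refine Finset.sum_congr rfl fun w _ => ?_
  split_ifs
  · exact Finset.prod_congr rfl fun i _ => hce _
  · rfl

end Pool.Agent.Helper75.CS
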