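import Pool.Agent.Helper75.CS.Growth

/-!
# A graph with 3 states and 30 edges (words of three letters)
-/

namespace Pool.Agent.Helper75.CS

open Finset

def srcE : Fin 30 → Fin 3 := ![0, 0, 0, 0, 0, 0, 0, 0, 0, 0, 0, 0, 0, 0, 0, 0, 1, 1, 1, 1, 1, 1, 1, 1, 1, 1, 2, 2, 2, 2]
def dstE : Fin 30 → Fin 3 := ![0, 0, 0, 0, 0, 0, 1, 1, 1, 1, 1, 1, 1, 2, 2, 2, 0, 0, 0, 1, 1, 1, 1, 1, 1, 2, 0, 2, 2, 2]
def wordE : Fin 30 → Fin 3 → Fin 7 := ![![0, 2, 2], ![0, 5, 0], ![1, 1, 4], ![3, 1, 2], ![3, 2, 1], ![5, 0, 1], ![0, 2, 4], ![0, 5, 3], ![2, 1, 4], ![2, 3, 3], ![3, 5, 1], ![5, 1, 2], ![5, 3, 1], ![0, 5, 4], ![5, 1, 4], ![5, 5, 1], ![0, 3, 0], ![1, 1, 3], ![2, 0, 1], ![0, 0, 4], ![1, 3, 3], ![1, 5, 1], ![2, 0, 3], ![2, 3, 0], ![5, 1, 0], ![2, 3, 3], ![1, 0, 0], ![0, 0, 4], ![1, 5, 1], ![5, 1, 0]]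

/-- all three columns are bad -/
def badE (e f g : Fin 30) : Bool :=
  bad7 (wordE e 0) (wordE f 0) (wordE g 0) && (bad7 (wordE e 1) (wordE f 1) (wordE g 1) &&
    bad7 (wordE e 2) (wordE f 2) (wordE g 2))

/-- two states are equal and the third one is larger -/
def RE (a b c : Fin 3) : Bool :=
  (decide (b = c) && decide (b < a)) || (decide (a = c) && decide (a < b)) ||
    (decide (a = b) && decide (a < c))

theorem h1E : ∀ e f g : Fin 30, srcE e = srcE f → srcE f = srcE g → badE e f g = true →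
    ¬ (e = f ∧ f = g) → RE (dstE e) (dstE f) (dstE g) = true := by
  decide +kernel

theorem h2E : ∀ e f g : Fin 30, RE (srcE e) (srcE f) (srcE g) = true → badE e f g = true →
    RE (dstE e) (dstE f) (dstE g) = true := by
  decide +kernel

theorem badE_of {e f g : Fin 30} (h : ∀ i, bad7 (wordE e i) (wordE f i) (wordE g i) = true) :
    badE e f g = true := by
  simp [badE, h 0, h 1, h 2]

theorem zE : ∀ e : Fin 30, zer (wordE e) + (srcE e).val = 2 + (dstE e).val := by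
  decide +kernel

def vE : Fin 3 → ℕ := ![10, 29, 19]

theorem evE : ∀ q : Fin 3, 63931 * vE q ≤
    1000 * ∑ e : Fin 30, if dstE e = q then vE (srcE e) * wtW (wordE e) else 0 := by
  decide +kernel

theorem bE : ∀ q : Fin 3, vE q ≤ 1 * UU srcE dstE (fun e => wtW (wordE e)) 0 1 q := by
  decide +kernel

theorem numE : 22212 ^ 162 * 1000 < 63931 * BB 3 2 * 10000 ^ 162 := by
  decide +kernel

theorem numE' : (22212 / 10000 : ℝ) ^ (3 * 54) * (1000 : ℕ) < (63931 : ℕ) * (BB 3 2 : ℕ) := by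
  rw [show 3 * 54 = 162 by norm_num, div_pow, div_mul_eq_mul_div, div_lt_iff₀ (by positivity)]
  exact_mod_cast numE

theorem capNum_22212 : ∃ r₁ : ℕ, ∀ r ≥ r₁, (22212 / 10000 : ℝ) ^ r ≤ (capNum r : ℝ) :=
  capNum_growth (r0 := 3) (K0 := 2) (by norm_num) (by norm_num) srcE dstE wordE
    (fun a b c => RE a b c = true) 0
    (fun e f g a b c d => h1E e f g a b (badE_of c) d) (fun e f g a b => h2E e f g a (badE_of b))
    (by decide) (fun q => q.val) rfl zE vE (by decide) 63931 1000 1 1 (by norm_num)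
    (by norm_num) evE bE _ (by norm_num) numE'

end Pool.Agent.Helper75.CS
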