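import Mathlib

/-!
# Cap sets in `Z_3^r`: definitions for the extended product construction

`capNum r` is the quantity of the problem (largest size of a weakly zero-3-sum-free subset
of `Z_3^r`, equivalently of a cap set in `AG(r,3)`).

A `Sys` is a family of finite cap sets indexed by symbols, together with a table of symbol
triples that MAY contain a zero sum; all other triples of symbols contain none.
-/

namespace Pool.Agent.Helper75.CS

open Finset

/-- weakly zero-3-sum-free: no three pairwise distinct elements of `A` have sum `0` -/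
def WeakFree {G : Type*} [AddCommGroup G] (A : Finset G) : Prop :=
  ∀ a ∈ A, ∀ b ∈ A, ∀ c ∈ A, a ≠ b → b ≠ c → a ≠ c → a + b + c ≠ 0

/-- the quantity of the problem file -/
noncomputable def capNum (r : ℕ) : ℕ :=
  sSup {k | ∃ A : Finset (Fin r → ZMod 3), A.card = k ∧ WeakFree A}

/-- cap sets: a zero sum of three elements is trivial -/
def Cap {G : Type*} [AddCommGroup G] (A : Finset G) : Prop :=
  ∀ a ∈ A, ∀ b ∈ A, ∀ c ∈ A, a + b + c = 0 → a = b ∧ b = c

/-- no zero sum with the summands in `A`, `B`, `C` -/
def NoSum {G : Type*} [AddCommGroup G] (A B C : Finset G) : Prop :=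
  ∀ a ∈ A, ∀ b ∈ B, ∀ c ∈ C, a + b + c ≠ 0

/-- a system of caps indexed by symbols, `bad` being the triples of symbols which may
contain a zero sum -/
structure Sys (σ : Type) (G : Type) [AddCommGroup G] where
  set : σ → Finset G
  bad : σ → σ → σ → Bool
  cap : ∀ s, Cap (set s)
  good : ∀ a b c, bad a b c = false → NoSum (set a) (set b) (set c)

/-- the product of the caps along a word -/
def box {σ G : Type} [AddCommGroup G] (S : Sys σ G) {l : ℕ} (u : Fin l → σ) :
    Finset (Fin l → G) :=
  Fintype.piFinset (fun i => S.set (u i))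

/-- three words all of whose columns are bad -/
def BadW {σ G : Type} [AddCommGroup G] (S : Sys σ G) {l : ℕ} (u v w : Fin l → σ) : Prop :=
  ∀ i, S.bad (u i) (v i) (w i) = true

/-- admissible set of words -/
def Adm {σ G : Type} [AddCommGroup G] (S : Sys σ G) {l : ℕ} (K : Finset (Fin l → σ)) : Prop :=
  ∀ u ∈ K, ∀ v ∈ K, ∀ w ∈ K, BadW S u v w → u = v ∧ v = w

/-- union of the boxes of a finite set of words -/
noncomputable def uni {σ G : Type} [AddCommGroup G] [DecidableEq G] (S : Sys σ G) {l : ℕ}
    (K : Finset (Fin l → σ)) : Finset (Fin l → G) :=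
  K.biUnion (fun u => box S u)

end Pool.Agent.Helper75.CS
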