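import Pool.Agent.Helper75.CS.Growth

namespace Pool.Agent.Helper75.CS

/-- the supremum in the definition of `capNum` is attained -/
theorem exists_capNum (r : ℕ) :
    ∃ A : Finset (Fin r → ZMod 3), WeakFree A ∧ A.card = capNum r := by
  have hne : {k | ∃ A : Finset (Fin r → ZMod 3), A.card = k ∧ WeakFree A}.Nonempty :=
    ⟨0, ∅, rfl, by intro a ha; simp at ha⟩
  have hbd : BddAbove {k | ∃ A : Finset (Fin r → ZMod 3), A.card = k ∧ WeakFree A} := by
    refine ⟨Fintype.card (Fin r → ZMod 3), ?_⟩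
    rintro k ⟨A, rfl, _⟩
    exact Finset.card_le_univ A
  obtain ⟨A, hA, hW⟩ := Nat.sSup_mem hne hbd
  exact ⟨A, hW, hA⟩

end Pool.Agent.Helper75.CS
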