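import Pool.Agent.Helper75.CS.Defs

/-!
# Goals of project CS (MP_06b118_co, cap sets)

Each `S_...` is a `Prop` with its complete proof in the docstring.
-/

namespace Pool.Agent.Helper75.CS

open Finset

/-- bad triples of base symbols: NOT one of the patterns `{0,0,1}`, `{0,0,2}`, `{0,1,2}` -/
def bad3 (a b c : Fin 3) : Bool :=
  let n0 := (if a = 0 then 1 else 0) + (if b = 0 then 1 else 0) + (if c = 0 then 1 else 0)
  !(decide (n0 = 2) || (decide (n0 = 1) && decide (a ≠ b) && decide (b ≠ c) && decide (a ≠ c)))

/-- CSBASE.  The classical sets in `F_3^6` (Edel).  `A_0` = the 12 vectors with exactly one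
nonzero coordinate.  Let `B` be the 2-(6,3,2) design with the 10 blocks
`012 013 024 035 045 125 134 145 234 235` (points `0..5`) and `B'` its complement (the other
10 triples).  `A_1` = all vectors whose support is a block of `B` (80 vectors) together with
the vectors of full support with an even number of coordinates equal to `2` (32 vectors);
`A_2` = the same with `B'`.  Checks (all by computer, see also the text):
caps (three sets), and no zero sum for the patterns 001, 002, 012.
For 001 and 002: a sum of two vectors of weight one has weight at most two, so it is not the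
negative of a vector of weight 3 or 6.  For 012: if `x` has weight one, `y ∈ A_1`, `z ∈ A_2`
and `x + y + z = 0` then `y` and `-z` differ in exactly one coordinate; supports of size 3 in
`B` and `B'` are different triples, so they differ in at least two coordinates; a full vector
and a vector of weight 3 differ in at least 3; two full vectors: `-z` has `6 - #2(z)` twos
(again even), vectors with an even number of twos differ in an even number of coordinates.
For the caps a kernel computation over the 112^2 pairs (encode a vector by its two bit masks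
`p` = positions of 1, `q` = positions of 2 or by base 3 digits, compute the third point of
the line and test membership in the list or in a 729-bit mask) is enough; the three design
facts needed may also be used: for the supports `X, Y, Z` of a line no coordinate may lie in
exactly one of them.  PLEASE VERIFY THE DESIGN FIRST BY COMPUTER (python) and change the list
of blocks if I made a slip; the statement does not mention it. -/
def S_CSBASE : Prop :=
  ∃ S : Sys (Fin 3) (Fin 6 → ZMod 3),
    (∀ a b c, S.bad a b c = bad3 a b c) ∧
      (S.set 0).card = 12 ∧ (S.set 1).card = 112 ∧ (S.set 2).card = 112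

/-- CSNUM.  (i) the supremum in `capNum` is attained or at least bounds: a cap `A` in a
finite dimensional `ZMod 3`-module `V` gives `A.card ≤ capNum (finrank V)`: choose a linear
equivalence `V ≃ (Fin n → ZMod 3)`, the image of `A` under it is a cap, hence weakly
zero-3-sum-free, of the same cardinality; the set in `sSup` is bounded above by `3^r`
(`Finset.card_le_univ`), so `le_csSup` applies.
(ii) monotone: a weakly free set in dimension `r` is carried to dimension `s ≥ r` by extending
with zeros (injective additive map).
(iii) `capNum D ^ k ≤ capNum (k * D)`: let `A` be a maximal weakly free set in dimension `D`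
(the set in `sSup` is nonempty (`∅`) and bounded, so the supremum is attained,
`Nat.sSup_mem`); it is a cap because in `ZMod 3`-modules `a + b + c = 0` with two equal
summands forces all three equal (`x + x + y = 0` gives `y = -2x = x`); then
`Fintype.piFinset (fun _ : Fin k => A)` is a cap in `Fin k → (Fin D → ZMod 3)`, which has
dimension `k * D` (`Module.finrank_pi_fintype`, `Module.finrank_fin_fun`), card `A.card ^ k`;
use (i).
(iv) `1 ≤ capNum r`: the singleton `{0}`. -/
def S_CSNUM : Prop :=
  (∀ (V : Type) (_ : AddCommGroup V) (_ : Module (ZMod 3) V) (_ : Module.Finite (ZMod 3) V)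
      (A : Finset V), Cap A → A.card ≤ capNum (Module.finrank (ZMod 3) V)) ∧
    (∀ r s : ℕ, r ≤ s → capNum r ≤ capNum s) ∧
    (∀ D k : ℕ, capNum D ^ k ≤ capNum (k * D)) ∧
    ∀ r : ℕ, 1 ≤ capNum r

/-- CSGROW.  Pure analysis.  `f` is monotone, `f (k * D) ≥ s ^ k` for all `k`, `D ≥ 1`,
`1 ≤ l` and `l ^ D < s`; then `l ^ r ≤ f r` for all large `r`.  Proof: put `q = s / l^D > 1`,
choose `k₀` with `q ^ k₀ ≥ l ^ D` (`pow_unbounded_of_one_lt`), `r₀ = k₀ * D`.  For `r ≥ r₀`
let `k = r / D ≥ k₀`, so `k * D ≤ r < (k+1) * D` and
`f r ≥ f (k * D) ≥ s ^ k = l ^ (D k) q ^ k ≥ l ^ (D k) l ^ D = l ^ (D (k+1)) ≥ l ^ r`. -/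
def S_CSGROW : Prop :=
  ∀ (f : ℕ → ℕ) (D s : ℕ) (l : ℝ), 1 ≤ D → 1 ≤ l → Monotone f →
    (∀ k, s ^ k ≤ f (k * D)) → l ^ D < (s : ℝ) → ∃ r₀ : ℕ, ∀ r ≥ r₀, l ^ r ≤ (f r : ℝ)

/-- the states visited by a word of edges -/
def IsWalk {E Q : Type} (src dst : E → Q) {N : ℕ} (q q' : Q) (w : Fin N → E) : Prop :=
  ∃ s : Fin (N + 1) → Q, s 0 = q ∧ s (Fin.last N) = q' ∧
    ∀ i : Fin N, src (w i) = s i.castSucc ∧ dst (w i) = s i.succ

/-- CSWALK.  Transfer matrix count.  `T N q` = sum over the walks `q0 → q` of length `N` of
the product of the weights.  Recursion: a walk of length `N + 1` is a walk of length `N`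
followed by an edge (`Fin.snocEquiv` or `Fin.snoc`/`Fin.init`; note that the state function
`s` is determined by `w` and the start), so
`T (N+1) q' = ∑ e with dst e = q', T N (src e) * c e`, and `T 0 q = if q = q0 then 1 else 0`
(the empty word, `s 0 = q0 = q`). -/
def S_CSWALK : Prop :=
  ∀ (E Q : Type) (_ : Fintype E) (_ : DecidableEq Q) (src dst : E → Q)
    (q0 : Q) (c : E → ℕ) (T : ℕ → Q → ℕ),
    (∀ N q, T N q = ∑ w : Fin N → E, (open Classical in if IsWalk src dst q0 q w then ∏ i, c (w i) else 0)) →
    (∀ q, T 0 q = if q = q0 then 1 else 0) ∧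
    ∀ N q', T (N + 1) q' = ∑ e : E, if dst e = q' then T N (src e) * c e else 0

end Pool.Agent.Helper75.CS
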