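import Pool.Agent.Helper75.CS.Walk

namespace Pool.Agent.Helper75.CS

open Finset

/-! ### The tournament level, `n = 3` -/

/-- the word with zero at `i`, `1` before and `2` after -/
def tour (i : Fin 3) : Fin 3 → Fin 3 := fun j => if j = i then 0 else if j < i then 1 else 2

def KT (s : Fin 3) : Finset (Fin 3 → Fin 3) :=
  if s = 0 then {tour 0, tour 1, tour 2}
  else if s = 1 then {fun _ => 1} else {fun _ => 2}

theorem kt_adm : ∀ t : Fin 3, ∀ u ∈ KT t, ∀ v ∈ KT t, ∀ w ∈ KT t,
    (∀ i, bad3 (u i) (v i) (w i) = true) → u = v ∧ v = w := by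
  decide +kernel

theorem kt_good : ∀ a b c : Fin 3, bad3 a b c = false → ∀ u ∈ KT a, ∀ v ∈ KT b, ∀ w ∈ KT c,
    ¬ (∀ i, bad3 (u i) (v i) (w i) = true) := by
  decide +kernel

/-! ### The letter level: `Z_3`-orbits of words of length 3

`0,1` = `111, 222`; `2,3` = rotations of `012`, `021`; `4,5` = rotations of `001`, `002`;
`6` = `000`.  The number of zeros of the letter `a` is `a / 2`, the version is `a % 2`. -/

def K7 (s : Fin 7) : Finset (Fin 3 → Fin 3) :=
  match s with
  | 0 => {![1, 1, 1]}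
  | 1 => {![2, 2, 2]}
  | 2 => {![0, 1, 2], ![1, 2, 0], ![2, 0, 1]}
  | 3 => {![0, 2, 1], ![2, 1, 0], ![1, 0, 2]}
  | 4 => {![0, 0, 1], ![0, 1, 0], ![1, 0, 0]}
  | 5 => {![0, 0, 2], ![0, 2, 0], ![2, 0, 0]}
  | 6 => {![0, 0, 0]}

/-- pair rule: `k` = common count of the two letters with versions `x`, `y`, `l` = count of
the third letter -/
def badPair (k l x y : ℕ) : Bool :=
  if k < l then x == y
  else if l + 1 = k then (k != 3) && (x != y)
  else false

def bad7 (a b c : Fin 7) : Bool :=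
  let ka := a.val / 2
  let kb := b.val / 2
  let kc := c.val / 2
  let xa := a.val % 2
  let xb := b.val % 2
  let xc := c.val % 2
  if ka = kb then
    if kb = kc then true else badPair ka kc xa xb
  else if ka = kc then badPair ka kb xa xc
  else if kb = kc then badPair kb ka xb xc
  else false

theorem k7_adm : ∀ t : Fin 7, ∀ u ∈ K7 t, ∀ v ∈ K7 t, ∀ w ∈ K7 t,
    (∀ i, bad3 (u i) (v i) (w i) = true) → u = v ∧ v = w := by
  decide +kernel

theorem k7_good : ∀ a b c : Fin 7, bad7 a b c = false → ∀ u ∈ K7 a, ∀ v ∈ K7 b, ∀ w ∈ K7 c,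
    ¬ (∀ i, bad3 (u i) (v i) (w i) = true) := by
  decide +kernel

end Pool.Agent.Helper75.CS
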