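import Pool.Agent.Helper75.CS.Basic

namespace Pool.Agent.Helper75.CS

open Finset

variable {E Q G : Type} [AddCommGroup G]

/-- The triple product argument.  `R` is a set of state triples, `q0` the base state.
(1) from a diagonal triple, three bad edges which are not all equal lead into `R`;
(2) `R` is closed under bad edge triples;
(3) `R` does not contain the diagonal triple of `q0`.
Then the closed walks at `q0` of any length are admissible. -/
theorem adm_walk (S : Sys E G) (src dst : E → Q) (q0 : Q) (R : Q → Q → Q → Prop)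
    (h1 : ∀ e f g, src e = src f → src f = src g → S.bad e f g = true →
      ¬ (e = f ∧ f = g) → R (dst e) (dst f) (dst g))
    (h2 : ∀ e f g, R (src e) (src f) (src g) → S.bad e f g = true →
      R (dst e) (dst f) (dst g))
    (h3 : ¬ R q0 q0 q0) {N : ℕ} (K : Finset (Fin N → E))
    (hK : ∀ w ∈ K, IsWalk src dst q0 q0 w) : Adm S K := by
  intro u hu v hv w hw hbad
  obtain ⟨s, s0, sN, hs⟩ := hK u hu
  obtain ⟨t, t0, tN, ht⟩ := hK v hv
  obtain ⟨r, r0, rN, hr⟩ := hK w hw
  have key : ∀ k : ℕ, ∀ hk : k ≤ N,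
      ((∀ i : Fin N, i.val < k → u i = v i ∧ v i = w i) ∧
        s ⟨k, Nat.lt_succ_of_le hk⟩ = t ⟨k, Nat.lt_succ_of_le hk⟩ ∧
        t ⟨k, Nat.lt_succ_of_le hk⟩ = r ⟨k, Nat.lt_succ_of_le hk⟩) ∨
      R (s ⟨k, Nat.lt_succ_of_le hk⟩) (t ⟨k, Nat.lt_succ_of_le hk⟩)
        (r ⟨k, Nat.lt_succ_of_le hk⟩) := by
    intro k
    induction k with
    | zero =>
      intro hk
      left
      refine ⟨fun i hi => absurd hi (Nat.not_lt_zero _), ?_, ?_⟩
      · have a1 : s ⟨0, Nat.lt_succ_of_le hk⟩ = q0 := s0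
        have a2 : t ⟨0, Nat.lt_succ_of_le hk⟩ = q0 := t0
        rw [a1, a2]
      · have a1 : t ⟨0, Nat.lt_succ_of_le hk⟩ = q0 := t0
        have a2 : r ⟨0, Nat.lt_succ_of_le hk⟩ = q0 := r0
        rw [a1, a2]
    | succ k ih =>
      intro hk
      have hk' : k < N := hk
      set i : Fin N := ⟨k, hk'⟩ with hi
      have es : src (u i) = s ⟨k, by omega⟩ ∧ dst (u i) = s ⟨k + 1, by omega⟩ := hs i
      have et : src (v i) = t ⟨k, by omega⟩ ∧ dst (v i) = t ⟨k + 1, by omega⟩ := ht i
      have er : src (w i) = r ⟨k, by omega⟩ ∧ dst (w i) = r ⟨k + 1, by omega⟩ := hr i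
      rcases ih (by omega) with ⟨hall, hst, htr⟩ | hR
      · by_cases heq : u i = v i ∧ v i = w i
        · left
          refine ⟨?_, ?_, ?_⟩
          · intro j hj
            rcases Nat.lt_succ_iff_lt_or_eq.mp hj with hlt | heq'
            · exact hall j hlt
            · have : j = i := Fin.ext heq'
              rw [this]
              exact heq
          · rw [← es.2, ← et.2, heq.1]
          · rw [← et.2, ← er.2, heq.2]
        · right
          rw [← es.2, ← et.2, ← er.2]
          refine h1 _ _ _ ?_ ?_ (hbad i) heq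
          · rw [es.1, et.1]; exact hst
          · rw [et.1, er.1]; exact htr
      · right
        rw [← es.2, ← et.2, ← er.2]
        refine h2 _ _ _ ?_ (hbad i)
        rw [es.1, et.1, er.1]
        exact hR
  rcases key N le_rfl with ⟨hall, _, _⟩ | hR
  · exact ⟨funext fun i => (hall i i.isLt).1, funext fun i => (hall i i.isLt).2⟩
  · exfalso
    have a1 : s ⟨N, Nat.lt_succ_of_le le_rfl⟩ = q0 := sN
    have a2 : t ⟨N, Nat.lt_succ_of_le le_rfl⟩ = q0 := tN
    have a3 : r ⟨N, Nat.lt_succ_of_le le_rfl⟩ = q0 := rN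
    rw [a1, a2, a3] at hR
    exact h3 hR

end Pool.Agent.Helper75.CS
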